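import Mathlib
import Pool.Agent.Q217.TT.Sums

/-!
# Tails of multiple zeta values (helper53)

`T u M` is the sum of `∏ n_i ^ (- u_i)` over `n_1 > ... > n_d > M`.
-/

set_option autoImplicit false

namespace Run7.h53.VD

open Filter Topology Finset
open Pool.Agent.H447R2.MZ (H H_nil H_cons H_cons_zero H_cons_succ H_nonneg Adm val tendsto_H H_le_val H_mono)
open Pool.Agent.Q217.TT (ep ep_nil ep_self ep_nonneg ep_succ ep_left ep_anti ep_mono)

lemma ep_cons (s : ℕ) (p : List ℕ) (M N : ℕ) :
    ep (s :: p) M N = ∑ n ∈ Finset.Ico M N, (((n + 1 : ℕ) : ℝ) ^ s)⁻¹ * ep p M n := by rw [ep]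

lemma ep_zero (p : List ℕ) (N : ℕ) : ep p 0 N = H p N := by
  induction p generalizing N with
  | nil => rw [ep_nil, H_nil]
  | cons s p ih =>
    rw [ep_cons, H_cons, ← Finset.range_eq_Ico]
    exact Finset.sum_congr rfl fun n _ => by rw [ih]

lemma ep_le_H (p : List ℕ) (M N : ℕ) : ep p M N ≤ H p N := by
  induction p generalizing N with
  | nil => rw [ep_nil, H_nil]
  | cons s p ih =>
    rw [ep_cons, H_cons]
    refine (Finset.sum_le_sum fun n _ => mul_le_mul_of_nonneg_left (ih n) (by positivity)).trans ?_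
    refine Finset.sum_le_sum_of_subset_of_nonneg (fun n hn => ?_) fun n _ _ =>
      mul_nonneg (by positivity) (H_nonneg _ _)
    exact Finset.mem_range.2 (Finset.mem_Ico.1 hn).2

lemma ep_monotone (p : List ℕ) (M : ℕ) : Monotone (ep p M) := by
  intro N N' h
  cases p with
  | nil => rw [ep_nil, ep_nil]
  | cons s p =>
    rw [ep_cons, ep_cons]
    exact Finset.sum_le_sum_of_subset_of_nonneg (Finset.Ico_subset_Ico_right h) fun n _ _ =>
      mul_nonneg (by positivity) (ep_nonneg _ _ _)

/-- tails -/
noncomputable def T (p : List ℕ) (M : ℕ) : ℝ := ⨆ N, ep p M N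

lemma ep_bdd {p : List ℕ} (hp : Adm p) (M : ℕ) : BddAbove (Set.range (ep p M)) :=
  ⟨val p, by rintro _ ⟨N, rfl⟩; exact (ep_le_H p M N).trans (H_le_val p hp N)⟩

lemma tendsto_T {p : List ℕ} (hp : Adm p) (M : ℕ) : Tendsto (ep p M) atTop (𝓝 (T p M)) :=
  tendsto_atTop_ciSup (ep_monotone p M) (ep_bdd hp M)

lemma T_zero {p : List ℕ} (hp : Adm p) : T p 0 = val p := by
  refine tendsto_nhds_unique (tendsto_T hp 0) ((tendsto_H p hp).congr fun N => ?_)
  rw [ep_zero]

lemma T_nil (M : ℕ) : T [] M = 1 := by
  unfold T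
  simp only [ep_nil]
  exact ciSup_const

lemma adm_append_left {p q : List ℕ} (h : Adm (p ++ q)) : Adm p := by
  refine ⟨fun a ha => h.1 a (List.mem_append_left _ ha), fun a t hat => ?_⟩
  subst hat
  exact h.2 a (t ++ q) rfl

lemma T_step {p : List ℕ} {s : ℕ} (h : Adm (p ++ [s])) (M : ℕ) :
    T (p ++ [s]) M = T (p ++ [s]) (M + 1) + (((M + 1 : ℕ) : ℝ) ^ s)⁻¹ * T p (M + 1) := by
  refine tendsto_nhds_unique (tendsto_T h M) ?_
  refine ((tendsto_T h (M + 1)).add ((tendsto_T (adm_append_left h) (M + 1)).const_mul _)).congr' ?_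
  filter_upwards [eventually_ge_atTop (M + 1)] with N hN
  exact (ep_left p s hN).symm

lemma T_nonneg {p : List ℕ} (hp : Adm p) (M : ℕ) : 0 ≤ T p M :=
  ge_of_tendsto' (tendsto_T hp M) fun N => ep_nonneg p M N

lemma T_le {p : List ℕ} (hp : Adm p) (hne : p ≠ []) (M : ℕ) : T p M ≤ val p - H p M := by
  refine le_of_tendsto_of_tendsto (tendsto_T hp M) ((tendsto_H p hp).sub_const (H p M)) ?_
  filter_upwards [eventually_ge_atTop M] with N hN
  cases p with
  | nil => exact absurd rfl hne
  | cons s p =>
    rw [ep_cons, H_cons, H_cons, Finset.range_eq_Ico, Finset.range_eq_Ico,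
      ← Finset.sum_Ico_consecutive _ (Nat.zero_le M) hN, add_sub_cancel_left]
    exact Finset.sum_le_sum fun n _ => mul_le_mul_of_nonneg_left (ep_le_H p M n) (by positivity)

lemma T_tendsto {p : List ℕ} (hp : Adm p) (hne : p ≠ []) : Tendsto (T p) atTop (𝓝 0) := by
  refine squeeze_zero (T_nonneg hp) (T_le hp hne) ?_
  have := (tendsto_H p hp).const_sub (val p)
  rwa [sub_self] at this

/-! ### Tails as combinations of truncated sums -/

/-- `f` is the combination `l` of truncated sums -/
def Rp (f : ℕ → ℝ) (l : List (ℝ × List ℕ)) : Prop := ∀ M, f M = (l.map fun x => x.1 * H x.2 M).sum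

/-- the words in `l` have length at most `L` and letters between `1` and `J` -/
def Bd (L J : ℕ) (l : List (ℝ × List ℕ)) : Prop :=
  ∀ x ∈ l, x.2.length ≤ L ∧ ∀ y ∈ x.2, 1 ≤ y ∧ y ≤ J

/-- multiply the coefficients -/
def sm (c : ℝ) (l : List (ℝ × List ℕ)) : List (ℝ × List ℕ) := l.map fun x => (c * x.1, x.2)

lemma sm_length (c : ℝ) (l : List (ℝ × List ℕ)) : (sm c l).length = l.length := by
  unfold sm
  rw [List.length_map]

lemma Rp.sm {f : ℕ → ℝ} {l : List (ℝ × List ℕ)} (h : Rp f l) (c : ℝ) :
    Rp (fun M => c * f M) (sm c l) := by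
  intro M
  show c * f M = _
  rw [h M]
  unfold VD.sm
  rw [List.map_map, ← List.sum_map_mul_left]
  congr 1
  refine List.map_congr_left fun x _ => ?_
  simp only [Function.comp]
  ring

lemma Bd.sm {L J : ℕ} {l : List (ℝ × List ℕ)} (h : Bd L J l) (c : ℝ) : Bd L J (sm c l) := by
  intro x hx
  obtain ⟨y, hy, rfl⟩ := List.mem_map.1 hx
  exact h y hy

lemma Rp.add {f g : ℕ → ℝ} {l l' : List (ℝ × List ℕ)} (h : Rp f l) (h' : Rp g l') :
    Rp (fun M => f M + g M) (l ++ l') := by
  intro M
  show f M + g M = _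
  rw [h M, h' M, List.map_append, List.sum_append]

lemma Bd.append {L J : ℕ} {l l' : List (ℝ × List ℕ)} (h : Bd L J l) (h' : Bd L J l') :
    Bd L J (l ++ l') := by
  intro x hx
  rcases List.mem_append.1 hx with hx | hx
  · exact h x hx
  · exact h' x hx

lemma Bd.mono {L J L' J' : ℕ} {l : List (ℝ × List ℕ)} (h : Bd L J l) (hL : L ≤ L') (hJ : J ≤ J') :
    Bd L' J' l := fun x hx => ⟨((h x hx).1).trans hL, fun y hy => ⟨((h x hx).2 y hy).1,
      ((h x hx).2 y hy).2.trans hJ⟩⟩

/-- merge the letter `a` with the first letter -/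
def mg (a : ℕ) (x : ℝ × List ℕ) : List (ℝ × List ℕ) :=
  match x.2 with
  | [] => []
  | b :: v => [(x.1, (a + b) :: v)]

/-- the operation on combinations -/
def op (a : ℕ) (l : List (ℝ × List ℕ)) : List (ℝ × List ℕ) :=
  l.flatMap fun x => (x.1, a :: x.2) :: mg a x

lemma sum_H (a : ℕ) (x : ℝ × List ℕ) (M : ℕ) :
    ∑ n ∈ Finset.range M, (((n + 1 : ℕ) : ℝ) ^ a)⁻¹ * (x.1 * H x.2 (n + 1)) =
      ((((x.1, a :: x.2) :: mg a x) : List (ℝ × List ℕ)).map fun x => x.1 * H x.2 M).sum := by
  obtain ⟨c, v⟩ := x
  cases v with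
  | nil =>
    simp only [mg, List.map_cons, List.map_nil, List.sum_cons, List.sum_nil, add_zero, H_nil, H_cons,
      Finset.mul_sum]
    exact Finset.sum_congr rfl fun n _ => by ring
  | cons b v =>
    simp only [mg, List.map_cons, List.map_nil, List.sum_cons, List.sum_nil, add_zero]
    rw [H_cons, H_cons, Finset.mul_sum, Finset.mul_sum, ← Finset.sum_add_distrib]
    refine Finset.sum_congr rfl fun n _ => ?_
    rw [H_cons_succ, pow_add, mul_inv]
    ring

lemma Rp.op {f : ℕ → ℝ} {l : List (ℝ × List ℕ)} (h : Rp f l) (a : ℕ) :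
    Rp (fun M => ∑ n ∈ Finset.range M, (((n + 1 : ℕ) : ℝ) ^ a)⁻¹ * f (n + 1)) (op a l) := by
  intro M
  show ∑ n ∈ Finset.range M, (((n + 1 : ℕ) : ℝ) ^ a)⁻¹ * f (n + 1) = _
  have h1 : ∀ n ∈ Finset.range M, (((n + 1 : ℕ) : ℝ) ^ a)⁻¹ * f (n + 1) =
      (l.map fun x => (((n + 1 : ℕ) : ℝ) ^ a)⁻¹ * (x.1 * H x.2 (n + 1))).sum := by
    intro n _
    rw [h (n + 1), ← List.sum_map_mul_left]
  rw [Finset.sum_congr rfl h1]
  clear h1 h
  unfold VD.op
  induction l with
  | nil => simp
  | cons x l ih =>
    simp only [List.map_cons, List.sum_cons, List.flatMap_cons, List.map_append, List.sum_append]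
    rw [Finset.sum_add_distrib, ih, sum_H]
    simp only [List.map_cons, List.sum_cons]

lemma Bd.op {L J : ℕ} {l : List (ℝ × List ℕ)} (h : Bd L J l) {a J' : ℕ} (ha : 1 ≤ a)
    (hJ : J + a ≤ J') : Bd (L + 1) J' (op a l) := by
  intro x hx
  obtain ⟨y, hy, hx⟩ := List.mem_flatMap.1 hx
  have h1 := h y hy
  rcases List.mem_cons.1 hx with rfl | hx
  · refine ⟨by simpa using h1.1, fun z hz => ?_⟩
    rcases List.mem_cons.1 hz with rfl | hz
    · exact ⟨ha, by omega⟩
    · have := h1.2 z hz
      exact ⟨this.1, by omega⟩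
  · obtain ⟨c, v⟩ := y
    cases v with
    | nil => simp [mg] at hx
    | cons b v =>
      simp only [mg, List.mem_singleton] at hx
      subst hx
      have h2 := h1.1
      rw [List.length_cons] at h2
      refine ⟨by rw [List.length_cons]; omega, fun z hz => ?_⟩
      rcases List.mem_cons.1 hz with rfl | hz
      · have := h1.2 b List.mem_cons_self
        exact ⟨by omega, by omega⟩
      · have := h1.2 z (List.mem_cons_of_mem _ hz)
        exact ⟨this.1, by omega⟩

lemma op_length (a : ℕ) (l : List (ℝ × List ℕ)) : (op a l).length ≤ 2 * l.length := by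
  unfold op
  induction l with
  | nil => simp
  | cons x l ih =>
    rw [List.flatMap_cons, List.length_append, List.length_cons, List.length_cons]
    have : (mg a x).length ≤ 1 := by
      obtain ⟨c, v⟩ := x
      cases v <;> simp [mg]
    omega

lemma T_sum {p : List ℕ} {s : ℕ} (h : Adm (p ++ [s])) (M : ℕ) :
    T (p ++ [s]) M = val (p ++ [s]) +
      (-1) * ∑ n ∈ Finset.range M, (((n + 1 : ℕ) : ℝ) ^ s)⁻¹ * T p (n + 1) := by
  induction M with
  | zero => rw [T_zero h]; simp
  | succ M ih =>
    rw [Finset.sum_range_succ]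
    have := T_step h M
    rw [ih] at this
    linarith

/-- **the tails are combinations of truncated sums**, with the reversed word as the only longest one -/
theorem rep (J : ℕ) (u : List ℕ) (hu : Adm u) (hJ : ∀ x ∈ u, x ≤ J) :
    ∃ l : List (ℝ × List ℕ), l.length + 2 ≤ 2 ^ (u.length + 1) ∧
      (∀ x ∈ l, x.2.length < u.length) ∧ Bd u.length (J * u.length) l ∧
      Rp (T u) (((-1) ^ u.length, u.reverse) :: l) := by
  induction u using List.reverseRecOn with
  | nil =>
    refine ⟨[], by simp, by simp, fun x hx => by simp at hx, fun M => ?_⟩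
    rw [T_nil]
    simp [H_nil]
  | append_singleton u a ih =>
    obtain ⟨l, hl1, hl2, hl3, hl4⟩ := ih (adm_append_left hu) fun x hx =>
      hJ x (List.mem_append_left _ hx)
    have ha1 : 1 ≤ a := hu.1 a (by simp)
    have haJ : a ≤ J := hJ a (by simp)
    have hlen : (u ++ [a]).length = u.length + 1 := by simp
    have hrep : Rp (T (u ++ [a])) ([(val (u ++ [a]), [])] ++
        sm (-1) (op a (((-1) ^ u.length, u.reverse) :: l))) := by
      have h1 : Rp (fun _ => val (u ++ [a])) [(val (u ++ [a]), [])] := by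
        intro M
        simp [H_nil]
      have h2 := h1.add ((hl4.op a).sm (-1))
      intro M
      rw [T_sum hu M]
      exact h2 M
    have hu1 : ∀ y ∈ u.reverse, 1 ≤ y ∧ y ≤ J * u.length := by
      intro y hy
      have hy' := List.mem_reverse.1 hy
      refine ⟨hu.1 y (List.mem_append_left _ hy'), ?_⟩
      have h1 := hJ y (List.mem_append_left _ hy')
      have h2 : 1 ≤ u.length := List.length_pos_of_mem hy'
      exact h1.trans (Nat.le_mul_of_pos_right J h2)
    set l' : List (ℝ × List ℕ) := (val (u ++ [a]), []) ::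
      sm (-1) (mg a ((-1) ^ u.length, u.reverse) ++ op a l) with hl'
    have hperm : Rp (T (u ++ [a])) (((-1) ^ (u.length + 1), a :: u.reverse) :: l') := by
      intro M
      rw [hrep M, hl']
      have e1 : op a (((-1 : ℝ) ^ u.length, u.reverse) :: l) =
        ((-1 : ℝ) ^ u.length, a :: u.reverse) :: (mg a ((-1) ^ u.length, u.reverse) ++ op a l) := by
        unfold op
        rw [List.flatMap_cons, List.cons_append]
      rw [e1]
      unfold sm
      simp only [List.map_cons, List.sum_cons, List.map_append, List.sum_append, List.cons_append,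
        List.nil_append, pow_succ]
      ring
    have hmg : Bd (u.length) (J * (u.length + 1)) (mg a ((-1 : ℝ) ^ u.length, u.reverse)) ∧
        (mg a ((-1 : ℝ) ^ u.length, u.reverse)).length ≤ 1 := by
      unfold mg
      cases hr : u.reverse with
      | nil => exact ⟨fun x hx => by simp at hx, by simp⟩
      | cons b v =>
        refine ⟨fun x hx => ?_, by simp⟩
        simp only [List.mem_singleton] at hx
        subst hx
        have h1 : u.length = v.length + 1 := by rw [← List.length_reverse, hr, List.length_cons]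
        refine ⟨by rw [List.length_cons]; omega, fun z hz => ?_⟩
        rw [hr] at hu1
        rcases List.mem_cons.1 hz with rfl | hz
        · have h2 := hu1 b List.mem_cons_self
          exact ⟨by omega, by rw [Nat.mul_add, mul_one]; omega⟩
        · have h2 := hu1 z (List.mem_cons_of_mem _ hz)
          exact ⟨h2.1, h2.2.trans (Nat.mul_le_mul_left _ (Nat.le_succ _))⟩
    refine ⟨l', ?_, ?_, ?_, ?_⟩
    · rw [hlen, hl', List.length_cons, sm_length, List.length_append, pow_succ 2 (u.length + 1)]
      have h1 := op_length a l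
      have h2 := hmg.2
      omega
    · intro x hx
      rw [hlen]
      rw [hl'] at hx
      rcases List.mem_cons.1 hx with rfl | hx
      · exact Nat.succ_pos _
      · obtain ⟨y, hy, rfl⟩ := List.mem_map.1 hx
        rcases List.mem_append.1 hy with hy | hy
        · have := (hmg.1 y hy).1
          show y.2.length < _
          omega
        · obtain ⟨z, hz, hy⟩ := List.mem_flatMap.1 hy
          have h3 := hl2 z hz
          show y.2.length < _
          rcases List.mem_cons.1 hy with rfl | hy
          · show (a :: z.2).length < _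
            rw [List.length_cons]; omega
          · obtain ⟨c, v⟩ := z
            cases v with
            | nil => simp [mg] at hy
            | cons b v =>
              simp only [mg, List.mem_singleton] at hy
              subst hy
              rw [List.length_cons] at h3 ⊢
              omega
    · rw [hlen, hl']
      have h1 : Bd u.length (J * (u.length + 1)) (mg a ((-1 : ℝ) ^ u.length, u.reverse)) := hmg.1
      have h2 : Bd (u.length + 1) (J * (u.length + 1)) (op a l) :=
        hl3.op ha1 (by rw [Nat.mul_add, mul_one]; omega)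
      intro x hx
      rcases List.mem_cons.1 hx with rfl | hx
      · exact ⟨Nat.zero_le _, fun y hy => by simp at hy⟩
      · exact ((h1.mono (Nat.le_succ _) le_rfl).append h2).sm (-1) x hx
    · rw [hlen, List.reverse_append, List.reverse_singleton, List.singleton_append]
      exact hperm

end Run7.h53.VD
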