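import Mathlib

/-!
# A Kraft inequality for sets of words with few members on each branch (helper53)
-/

set_option autoImplicit false

namespace Run7.h53.VD

open scoped ENNReal

/-- the first `n` letters -/
def pf (a : ℕ → ℕ) (n : ℕ) : List ℕ := (List.range n).map a

lemma pf_zero (a : ℕ → ℕ) : pf a 0 = [] := rfl

lemma pf_succ (a : ℕ → ℕ) (n : ℕ) : pf a (n + 1) = pf a n ++ [a n] := by
  unfold pf
  rw [List.range_succ, List.map_append, List.map_singleton]

lemma pf_length (a : ℕ → ℕ) (n : ℕ) : (pf a n).length = n := by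
  unfold pf
  rw [List.length_map, List.length_range]

lemma pf_congr {a b : ℕ → ℕ} {n : ℕ} (h : ∀ i < n, a i = b i) : pf a n = pf b n :=
  List.map_congr_left fun i hi => h i (List.mem_range.1 hi)

lemma mem_pf {a : ℕ → ℕ} {n x : ℕ} : x ∈ pf a n ↔ ∃ i < n, a i = x := by
  unfold pf
  simp [List.mem_map, List.mem_range]

/-- put a letter in front -/
def cns (x : ℕ) (b : ℕ → ℕ) : ℕ → ℕ
  | 0 => x
  | n + 1 => b n

lemma pf_cns (x : ℕ) (b : ℕ → ℕ) (n : ℕ) : pf (cns x b) (n + 1) = x :: pf b n := by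
  induction n with
  | zero => rfl
  | succ n ih => rw [pf_succ, ih, pf_succ]; rfl

/-- the equivalence `[] | a :: t` -/
def splitList : List ℕ ≃ Unit ⊕ (ℕ × List ℕ) where
  toFun l := match l with
    | [] => Sum.inl ()
    | a :: t => Sum.inr (a, t)
  invFun s := match s with
    | Sum.inl _ => []
    | Sum.inr p => p.1 :: p.2
  left_inv l := by cases l <;> rfl
  right_inv s := by rcases s with _ | ⟨a, t⟩ <;> rfl

lemma tsum_list (f : List ℕ → ℝ≥0∞) : ∑' t, f t = f [] + ∑' a, ∑' t, f (a :: t) := by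
  have h1 : ∑' t, f t = ∑' s : Unit ⊕ (ℕ × List ℕ), f (splitList.symm s) :=
    (Equiv.tsum_eq splitList.symm f).symm
  rw [h1, Summable.tsum_sum ENNReal.summable ENNReal.summable, ENNReal.tsum_prod']
  congr 1
  rw [tsum_fintype]
  simp [splitList]

open Classical in
/-- the weight of the members of `Z` of length at most `n` -/
noncomputable def wt (p : ℕ → ℝ≥0∞) (n : ℕ) (Z : Set (List ℕ)) : ℝ≥0∞ :=
  ∑' t : List ℕ, if t.length ≤ n ∧ t ∈ Z then (t.map p).prod else 0

/-- at most `R` members of `Z` are prefixes of one infinite word -/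
def Few (R : ℕ) (Z : Set (List ℕ)) : Prop := ∀ a : ℕ → ℕ, {n : ℕ | pf a n ∈ Z}.encard ≤ R

lemma few_sub {R : ℕ} {Z : Set (List ℕ)} (h : Few R Z) (x : ℕ) : Few R {t | x :: t ∈ Z} := by
  intro b
  refine le_trans ?_ (h (cns x b))
  rw [← (Nat.succ_injective).encard_image]
  refine Set.encard_le_encard ?_
  rintro _ ⟨n, hn, rfl⟩
  show pf (cns x b) (n + 1) ∈ Z
  rw [pf_cns]
  exact hn

lemma few_sub' {R : ℕ} {Z : Set (List ℕ)} (h : Few R Z) (h0 : [] ∈ Z) (x : ℕ) :
    ∃ R', R = R' + 1 ∧ Few R' {t | x :: t ∈ Z} := by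
  have key : ∀ b : ℕ → ℕ, {n : ℕ | pf b n ∈ {t | x :: t ∈ Z}}.encard + 1 ≤ R := by
    intro b
    refine le_trans ?_ (h (cns x b))
    have h1 : Nat.succ '' {n : ℕ | pf b n ∈ {t | x :: t ∈ Z}} ⊆ {n : ℕ | pf (cns x b) n ∈ Z} := by
      rintro _ ⟨n, hn, rfl⟩
      show pf (cns x b) (n + 1) ∈ Z
      rw [pf_cns]
      exact hn
    have h2 : 0 ∉ Nat.succ '' {n : ℕ | pf b n ∈ {t | x :: t ∈ Z}} := by
      rintro ⟨n, _, hn⟩
      exact Nat.succ_ne_zero n hn
    rw [← (Nat.succ_injective).encard_image, ← Set.encard_insert_of_notMem h2]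
    refine Set.encard_le_encard (Set.insert_subset ?_ h1)
    exact h0
  obtain ⟨R', rfl⟩ : ∃ R', R = R' + 1 := by
    refine ⟨R - 1, ?_⟩
    have h1 := key (fun _ => 0)
    have h2 : (1 : ℕ∞) ≤ R := le_trans le_add_self h1
    have h3 : 1 ≤ R := by exact_mod_cast h2
    omega
  refine ⟨R', rfl, fun b => ?_⟩
  have h1 := key b
  push_cast at h1
  exact (ENat.add_le_add_iff_right (by simp)).1 h1

open Classical in
theorem kraft_aux (p : ℕ → ℝ≥0∞) (hp : ∑' a, p a ≤ 1) (n : ℕ) : ∀ (R : ℕ) (Z : Set (List ℕ)),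
    Few R Z → wt p n Z ≤ R := by
  induction n with
  | zero =>
    intro R Z h
    have h1 : wt p 0 Z = if ([] : List ℕ) ∈ Z then 1 else 0 := by
      unfold wt
      rw [tsum_eq_single []]
      · simp
      · intro t ht
        rw [if_neg]
        rintro ⟨h1, _⟩
        exact ht (List.length_eq_zero_iff.1 (Nat.le_zero.1 h1))
    rw [h1]
    split_ifs with h0
    · obtain ⟨R', rfl, _⟩ := few_sub' h h0 0
      push_cast
      exact le_add_self
    · exact zero_le
  | succ n ih =>
    intro R Z h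
    have h1 : wt p (n + 1) Z = (if ([] : List ℕ) ∈ Z then 1 else 0) +
        ∑' a, p a * wt p n {t | a :: t ∈ Z} := by
      unfold wt
      rw [tsum_list]
      congr 1
      · simp
      · refine tsum_congr fun a => ?_
        rw [← ENNReal.tsum_mul_left]
        refine tsum_congr fun t => ?_
        simp only [List.length_cons, Nat.add_le_add_iff_right, List.map_cons, List.prod_cons,
          Set.mem_ofPred_eq, mul_ite, mul_zero]
    rw [h1]
    split_ifs with h0
    · obtain ⟨R', rfl, _⟩ := few_sub' h h0 0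
      have h2 : ∀ a, p a * wt p n {t | a :: t ∈ Z} ≤ p a * R' := by
        intro a
        obtain ⟨R'', h3, h4⟩ := few_sub' h h0 a
        have h5 : R'' = R' := by omega
        subst h5
        exact mul_le_mul_right (ih R'' _ h4) (p a)
      have h3 : ∑' a, p a * wt p n {t | a :: t ∈ Z} ≤ R' := by
        refine (ENNReal.tsum_le_tsum h2).trans ?_
        rw [ENNReal.tsum_mul_right]
        exact (mul_le_mul_left hp _).trans (by rw [one_mul])
      push_cast
      rw [add_comm]
      exact add_le_add h3 le_rfl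
    · rw [zero_add]
      have h2 : ∀ a, p a * wt p n {t | a :: t ∈ Z} ≤ p a * R := fun a =>
        mul_le_mul_right (ih R _ (few_sub h a)) (p a)
      refine (ENNReal.tsum_le_tsum h2).trans ?_
      rw [ENNReal.tsum_mul_right]
      exact (mul_le_mul_left hp _).trans (by rw [one_mul])

/-- **Kraft inequality** -/
theorem kraft (p : ℕ → ℝ≥0∞) (hp : ∑' a, p a ≤ 1) {R : ℕ} {Z : Set (List ℕ)} (h : Few R Z) :
    ∑' t : Z, (t.1.map p).prod ≤ R := by
  classical
  rw [ENNReal.tsum_eq_iSup_sum]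
  refine iSup_le fun F => ?_
  obtain ⟨n, hn⟩ : ∃ n, ∀ t ∈ F, t.1.length ≤ n :=
    ⟨F.sup fun t => t.1.length, fun t ht => Finset.le_sup (f := fun t : Z => t.1.length) ht⟩
  refine le_trans ?_ (kraft_aux p hp n R Z h)
  have h1 : ∑ t ∈ F, (t.1.map p).prod =
      ∑ t ∈ F.map (Function.Embedding.subtype _), if t.length ≤ n ∧ t ∈ Z then (t.map p).prod else 0 := by
    rw [Finset.sum_map]
    refine Finset.sum_congr rfl fun t ht => ?_
    rw [if_pos]
    · rfl
    · exact ⟨hn t ht, t.2⟩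
  rw [h1]
  exact ENNReal.sum_le_tsum _

end Run7.h53.VD
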