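import Mathlib
import Pool.Agent.R404.MZ.Box

/-!
# Changes of sign of sequences and of their sums (helper53)

`SA f m`: the sequence `f` has `m` changes of sign at positive places.
-/

set_option autoImplicit false

namespace Run7.h53.VD

open Filter Topology
open Pool.Agent.R404.MZ (SA SA.wa)
open Pool.Agent.Y760.ZF (WA)

/-- an intermediate difference has the right sign -/
lemma drop {g : ℕ → ℝ} {a b : ℕ} (hab : a ≤ b) (h : g b < g a) :
    ∃ k, a ≤ k ∧ k < b ∧ 0 < g k - g (k + 1) := by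
  induction b, hab using Nat.le_induction with
  | base => exact absurd h (lt_irrefl _)
  | succ b hb ih =>
    rcases lt_or_ge (g b) (g a) with h1 | h1
    · obtain ⟨k, h2, h3, h4⟩ := ih h1
      exact ⟨k, h2, by omega, h4⟩
    · exact ⟨b, hb, by omega, by linarith⟩

lemma dropS {g : ℕ → ℝ} {a b : ℕ} (hab : a ≤ b) {δ : ℝ} (h : 0 < δ * (g a - g b)) :
    ∃ k, a ≤ k ∧ k < b ∧ 0 < δ * (g k - g (k + 1)) := by
  obtain ⟨k, h2, h3, h4⟩ := drop (g := fun n => δ * g n) hab (by
    have : δ * (g a - g b) = δ * g a - δ * g b := by ring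
    linarith)
  exact ⟨k, h2, h3, by
    have : δ * (g k - g (k + 1)) = δ * g k - δ * g (k + 1) := by ring
    rw [this]; exact h4⟩

/-- a value of a null sequence which is not zero forces a drop to the right -/
lemma dropInf {g : ℕ → ℝ} (hg : Tendsto g atTop (𝓝 0)) {a : ℕ} {δ : ℝ} (h : 0 < δ * g a) :
    ∃ k, a ≤ k ∧ 0 < δ * (g k - g (k + 1)) := by
  have h1 : Tendsto (fun n => δ * g n) atTop (𝓝 0) := by
    have := hg.const_mul δ
    rwa [mul_zero] at this
  obtain ⟨b, hb, hb2⟩ := ((h1.eventually (gt_mem_nhds h)).and (eventually_ge_atTop a)).exists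
  obtain ⟨k, h2, _, h4⟩ := dropS (δ := δ) hb2 (by
    have : δ * (g a - g b) = δ * g a - δ * g b := by ring
    rw [this]; linarith)
  exact ⟨k, h2, h4⟩

lemma sgn_sq {ε : ℝ} (hε : ε = 1 ∨ ε = -1) : ε * ε = 1 := by
  rcases hε with rfl | rfl <;> norm_num

/-- the tails of a sum have at most as many changes of sign as the terms -/
theorem tail_sa {f g w : ℕ → ℝ} (hw : ∀ k, 0 < w k) (hgf : ∀ k, g k = g (k + 1) + w k * f (k + 1))
    (hg : Tendsto g atTop (𝓝 0)) {m : ℕ} (h : SA g m) : SA f m := by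
  obtain ⟨u, ε, hε, hu0, hu, hs⟩ := h
  have hmono : ∀ i, i < m → u i ≤ u (i + 1) := fun i hi => (hu i hi).le
  have key : ∀ i, i ≤ m → ∃ k, u i ≤ k ∧ (i < m → k < u (i + 1)) ∧
      0 < (ε * (-1) ^ i) * (g k - g (k + 1)) := by
    intro i hi
    rcases hi.lt_or_eq with hlt | rfl
    · obtain ⟨k, h1, h2, h3⟩ := dropS (g := g) (δ := ε * (-1) ^ i) (hmono i hlt) (by
        have h1 := hs i hi
        have h2 := hs (i + 1) hlt
        rw [pow_succ] at h2
        nlinarith)
      exact ⟨k, h1, fun _ => h2, h3⟩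
    · obtain ⟨k, h1, h3⟩ := dropInf hg (hs i hi)
      exact ⟨k, h1, fun h => absurd h (lt_irrefl _), h3⟩
  choose! k hk1 hk2 hk3 using key
  refine ⟨fun i => k i + 1, ε, hε, Nat.le_add_left 1 _, fun i hi => ?_, fun i hi => ?_⟩
  · have h1 := hk2 i hi.le hi
    have h2 := hk1 (i + 1) hi
    show k i + 1 < k (i + 1) + 1
    omega
  · have h1 := hk3 i hi
    rw [hgf (k i)] at h1
    have h2 : ε * (-1) ^ i * (g (k i + 1) + w (k i) * f (k i + 1) - g (k i + 1)) =
      w (k i) * (ε * (-1) ^ i * f (k i + 1)) := by ring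
    rw [h2] at h1
    exact (mul_pos_iff_of_pos_left (hw _)).1 h1

/-- and at most one less if the whole sum vanishes -/
theorem tail_sa_zero {f g w : ℕ → ℝ} (hw : ∀ k, 0 < w k)
    (hgf : ∀ k, g k = g (k + 1) + w k * f (k + 1))
    (hg : Tendsto g atTop (𝓝 0)) (h0 : g 0 = 0) {m : ℕ} (h : SA g m) : SA f (m + 1) := by
  obtain ⟨u, ε, hε, hu0, hu, hs⟩ := h
  have hmono : ∀ i, i < m → u i ≤ u (i + 1) := fun i hi => (hu i hi).le
  have key : ∀ i, i ≤ m → ∃ k, u i ≤ k ∧ (i < m → k < u (i + 1)) ∧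
      0 < (ε * (-1) ^ i) * (g k - g (k + 1)) := by
    intro i hi
    rcases hi.lt_or_eq with hlt | rfl
    · obtain ⟨k, h1, h2, h3⟩ := dropS (g := g) (δ := ε * (-1) ^ i) (hmono i hlt) (by
        have h1 := hs i hi
        have h2 := hs (i + 1) hlt
        rw [pow_succ] at h2
        nlinarith)
      exact ⟨k, h1, fun _ => h2, h3⟩
    · obtain ⟨k, h1, h3⟩ := dropInf hg (hs i hi)
      exact ⟨k, h1, fun h => absurd h (lt_irrefl _), h3⟩
  obtain ⟨k0, hk01, hk02, hk03⟩ := dropS (g := g) (δ := -ε) (Nat.zero_le (u 0)) (by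
    have h1 := hs 0 (Nat.zero_le _)
    rw [pow_zero, mul_one] at h1
    rw [h0]
    linarith)
  choose! k hk1 hk2 hk3 using key
  refine ⟨fun i => (if i = 0 then k0 else k (i - 1)) + 1, -ε, ?_, Nat.le_add_left 1 _, fun i hi => ?_,
    fun i hi => ?_⟩
  · rcases hε with rfl | rfl
    · right; rfl
    · left; norm_num
  · show (if i = 0 then k0 else k (i - 1)) + 1 < (if i + 1 = 0 then k0 else k (i + 1 - 1)) + 1
    rw [if_neg (Nat.succ_ne_zero i)]
    rcases Nat.eq_zero_or_pos i with rfl | hi0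
    · rw [if_pos rfl]
      have := hk1 0 (Nat.zero_le _)
      simp only [Nat.zero_add, Nat.sub_self]
      omega
    · rw [if_neg (by omega)]
      obtain ⟨j, rfl⟩ : ∃ j, i = j + 1 := ⟨i - 1, by omega⟩
      have h1 := hk2 j (by omega) (by omega)
      have h2 := hk1 (j + 1) (by omega)
      simp only [Nat.add_sub_cancel]
      omega
  · show 0 < -ε * (-1) ^ i * f ((if i = 0 then k0 else k (i - 1)) + 1)
    rcases Nat.eq_zero_or_pos i with rfl | hi0
    · rw [if_pos rfl]
      have h1 := hk03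
      rw [hgf k0] at h1
      have h2 : -ε * (g (k0 + 1) + w k0 * f (k0 + 1) - g (k0 + 1)) = w k0 * (-ε * f (k0 + 1)) := by
        ring
      rw [h2] at h1
      have := (mul_pos_iff_of_pos_left (hw _)).1 h1
      simpa using this
    · rw [if_neg (by omega)]
      obtain ⟨j, rfl⟩ : ∃ j, i = j + 1 := ⟨i - 1, by omega⟩
      rw [Nat.add_sub_cancel]
      have h1 := hk3 j (by omega)
      rw [hgf (k j)] at h1
      have h2 : ε * (-1) ^ j * (g (k j + 1) + w (k j) * f (k j + 1) - g (k j + 1)) =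
        w (k j) * (ε * (-1) ^ j * f (k j + 1)) := by ring
      rw [h2] at h1
      have h3 := (mul_pos_iff_of_pos_left (hw _)).1 h1
      have h4 : -ε * (-1) ^ (j + 1) * f (k j + 1) = ε * (-1) ^ j * f (k j + 1) := by
        rw [pow_succ]; ring
      rw [h4]
      exact h3

/-- the truncated sums have at most as many changes of sign as the terms -/
theorem head_sa {f g w : ℕ → ℝ} (hw : ∀ k, 0 < w k)
    (hgf : ∀ k, 1 ≤ k → g (k + 1) = g k + w k * f k) (h1 : g 1 = 0) {m : ℕ} (h : SA g m) :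
    SA f m := by
  obtain ⟨u, ε, hε, hu0, hu, hs⟩ := h
  have hmono : ∀ i, i < m → u i ≤ u (i + 1) := fun i hi => (hu i hi).le
  have hpos : ∀ i, i ≤ m → 1 ≤ u i := fun i hi =>
    hu0.trans (Pool.Agent.Y760.ZF.wa_mono hu (Nat.zero_le i) hi)
  have key : ∀ i, i < m → ∃ k, u i ≤ k ∧ k < u (i + 1) ∧
      0 < (ε * (-1) ^ i) * (g k - g (k + 1)) := by
    intro i hlt
    exact dropS (g := g) (δ := ε * (-1) ^ i) (hmono i hlt) (by
        have h1 := hs i hlt.le
        have h2 := hs (i + 1) hlt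
        rw [pow_succ] at h2
        nlinarith)
  obtain ⟨k0, hk01, hk02, hk03⟩ := dropS (g := g) (δ := -ε) hu0 (by
    have h2 := hs 0 (Nat.zero_le _)
    rw [pow_zero, mul_one] at h2
    rw [h1]
    linarith)
  choose! k hk1 hk2 hk3 using key
  refine ⟨fun i => (if i = 0 then k0 else k (i - 1)), ε, hε, by simpa using hk01, fun i hi => ?_,
    fun i hi => ?_⟩
  · show (if i = 0 then k0 else k (i - 1)) < (if i + 1 = 0 then k0 else k (i + 1 - 1))
    rw [if_neg (Nat.succ_ne_zero i)]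
    rcases Nat.eq_zero_or_pos i with rfl | hi0
    · rw [if_pos rfl]
      have := hk1 0 hi
      simp only [Nat.zero_add, Nat.sub_self]
      omega
    · rw [if_neg (by omega)]
      obtain ⟨j, rfl⟩ : ∃ j, i = j + 1 := ⟨i - 1, by omega⟩
      have h1 := hk2 j (by omega)
      have h2 := hk1 (j + 1) (by omega)
      simp only [Nat.add_sub_cancel]
      omega
  · show 0 < ε * (-1) ^ i * f (if i = 0 then k0 else k (i - 1))
    rcases Nat.eq_zero_or_pos i with rfl | hi0
    · rw [if_pos rfl]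
      have h1 := hk03
      rw [hgf k0 hk01] at h1
      have h2 : -ε * (g k0 - (g k0 + w k0 * f k0)) = w k0 * (ε * f k0) := by
        ring
      rw [h2] at h1
      have := (mul_pos_iff_of_pos_left (hw _)).1 h1
      simpa using this
    · rw [if_neg (by omega)]
      obtain ⟨j, rfl⟩ : ∃ j, i = j + 1 := ⟨i - 1, by omega⟩
      rw [Nat.add_sub_cancel]
      have h1 := hk3 j (by omega)
      rw [hgf (k j) ((hpos j (by omega)).trans (hk1 j (by omega)))] at h1
      have h2 : ε * (-1) ^ j * (g (k j) - (g (k j) + w (k j) * f (k j))) =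
        w (k j) * (ε * (-1) ^ (j + 1) * f (k j)) := by rw [pow_succ]; ring
      rw [h2] at h1
      exact (mul_pos_iff_of_pos_left (hw _)).1 h1

/-- and at most one less if the limit vanishes -/
theorem head_sa_zero {f g w : ℕ → ℝ} (hw : ∀ k, 0 < w k)
    (hgf : ∀ k, 1 ≤ k → g (k + 1) = g k + w k * f k) (h1 : g 1 = 0)
    (hg : Tendsto g atTop (𝓝 0)) {m : ℕ} (h : SA g m) : SA f (m + 1) := by
  obtain ⟨u, ε, hε, hu0, hu, hs⟩ := h
  have hmono : ∀ i, i < m → u i ≤ u (i + 1) := fun i hi => (hu i hi).le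
  have hpos : ∀ i, i ≤ m → 1 ≤ u i := fun i hi =>
    hu0.trans (Pool.Agent.Y760.ZF.wa_mono hu (Nat.zero_le i) hi)
  have key : ∀ i, i ≤ m → ∃ k, u i ≤ k ∧ (i < m → k < u (i + 1)) ∧
      0 < (ε * (-1) ^ i) * (g k - g (k + 1)) := by
    intro i hi
    rcases hi.lt_or_eq with hlt | rfl
    · obtain ⟨k, h1, h2, h3⟩ := dropS (g := g) (δ := ε * (-1) ^ i) (hmono i hlt) (by
        have h1 := hs i hi
        have h2 := hs (i + 1) hlt
        rw [pow_succ] at h2
        nlinarith)
      exact ⟨k, h1, fun _ => h2, h3⟩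
    · obtain ⟨k, h1, h3⟩ := dropInf hg (hs i hi)
      exact ⟨k, h1, fun h => absurd h (lt_irrefl _), h3⟩
  obtain ⟨k0, hk01, hk02, hk03⟩ := dropS (g := g) (δ := -ε) hu0 (by
    have h2 := hs 0 (Nat.zero_le _)
    rw [pow_zero, mul_one] at h2
    rw [h1]
    linarith)
  choose! k hk1 hk2 hk3 using key
  refine ⟨fun i => (if i = 0 then k0 else k (i - 1)), ε, hε, by simpa using hk01, fun i hi => ?_,
    fun i hi => ?_⟩
  · show (if i = 0 then k0 else k (i - 1)) < (if i + 1 = 0 then k0 else k (i + 1 - 1))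
    rw [if_neg (Nat.succ_ne_zero i)]
    rcases Nat.eq_zero_or_pos i with rfl | hi0
    · rw [if_pos rfl]
      have := hk1 0 (Nat.zero_le _)
      simp only [Nat.zero_add, Nat.sub_self]
      omega
    · rw [if_neg (by omega)]
      obtain ⟨j, rfl⟩ : ∃ j, i = j + 1 := ⟨i - 1, by omega⟩
      have h1 := hk2 j (by omega) (by omega)
      have h2 := hk1 (j + 1) (by omega)
      simp only [Nat.add_sub_cancel]
      omega
  · show 0 < ε * (-1) ^ i * f (if i = 0 then k0 else k (i - 1))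
    rcases Nat.eq_zero_or_pos i with rfl | hi0
    · rw [if_pos rfl]
      have h1 := hk03
      rw [hgf k0 hk01] at h1
      have h2 : -ε * (g k0 - (g k0 + w k0 * f k0)) = w k0 * (ε * f k0) := by
        ring
      rw [h2] at h1
      have := (mul_pos_iff_of_pos_left (hw _)).1 h1
      simpa using this
    · rw [if_neg (by omega)]
      obtain ⟨j, rfl⟩ : ∃ j, i = j + 1 := ⟨i - 1, by omega⟩
      rw [Nat.add_sub_cancel]
      have h1 := hk3 j (by omega)
      rw [hgf (k j) ((hpos j (by omega)).trans (hk1 j (by omega)))] at h1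
      have h2 : ε * (-1) ^ j * (g (k j) - (g (k j) + w (k j) * f (k j))) =
        w (k j) * (ε * (-1) ^ (j + 1) * f (k j)) := by rw [pow_succ]; ring
      rw [h2] at h1
      exact (mul_pos_iff_of_pos_left (hw _)).1 h1

end Run7.h53.VD
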