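import Mathlib
import Pool.Agent.Run7.h53.VD.Tails
import Pool.Agent.Run7.h53.VD.Signs
import Pool.Agent.Run7.h53.VD.Kraft

/-!
# Vanishing combinations along the extensions of a finite set of words (helper53)
-/

set_option autoImplicit false

namespace Run7.h53.VD

open Filter Topology Finset
open Pool.Agent.H447R2.MZ (H H_nil H_cons H_cons_zero H_cons_succ H_nonneg Adm val tendsto_H H_le_val H_mono)
open Pool.Agent.R404.MZ (SA SA.mono SA.wa cmb co)
open Pool.Agent.Y760.ZF (WA)
open Pool.Agent.Y760.ZG (hr hr_nil hr_cons)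

lemma H_hr (l : List ℕ) (M : ℕ) : H l M = hr l (M + 1) := by
  induction l generalizing M with
  | nil => rw [H_nil, hr_nil]
  | cons a l ih =>
    have h1 := Finset.sum_Ico_add' (fun j => hr l j / (j : ℝ) ^ a) 0 M 1
    rw [Nat.zero_add] at h1
    rw [H_cons, hr_cons, Finset.range_eq_Ico, ← h1]
    refine Finset.sum_congr rfl fun n _ => ?_
    rw [ih, div_eq_inv_mul]

/-- no long weakly alternating sequence of values -/
def NoWA (f : ℕ → ℝ) (R : ℕ) : Prop := ∀ hi, ¬ WA f 1 hi R

lemma NoWA.nz {f : ℕ → ℝ} {R : ℕ} (h : NoWA f R) : ∀ M, ∃ k, M ≤ k ∧ f k ≠ 0 := by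
  intro M
  by_contra hcon
  push Not at hcon
  refine h (M + 1 + R) ⟨fun i => M + 1 + i, 1, Or.inl rfl, by show 1 ≤ M + 1 + 0; omega, le_rfl,
    fun i _ => by show M + 1 + i < M + 1 + (i + 1); omega, fun i _ => ?_⟩
  rw [hcon (M + 1 + i) (by omega), mul_zero]

lemma NoWA.sa {f : ℕ → ℝ} {R : ℕ} (h : NoWA f R) {m : ℕ} (hm : SA f m) : m < R := by
  by_contra hcon
  obtain ⟨hi, h1⟩ := (hm.mono (not_lt.1 hcon)).wa
  exact h hi h1

lemma sa_zero {f : ℕ → ℝ} {k : ℕ} (hk : 1 ≤ k) (h : f k ≠ 0) : SA f 0 := by
  rcases lt_or_gt_of_ne h with h1 | h1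
  · refine ⟨fun _ => k, -1, Or.inr rfl, hk, fun i hi => absurd hi (Nat.not_lt_zero i), fun i hi => ?_⟩
    have : i = 0 := by omega
    subst this
    simpa using h1
  · refine ⟨fun _ => k, 1, Or.inl rfl, hk, fun i hi => absurd hi (Nat.not_lt_zero i), fun i hi => ?_⟩
    have : i = 0 := by omega
    subst this
    simpa using h1

/-- the number of zeros in a chain of tails -/
theorem tail_chain {G : ℕ → ℕ → ℝ} {w : ℕ → ℕ → ℝ} {R : ℕ} (hw : ∀ n k, 0 < w n k)
    (hG : ∀ n k, G (n + 1) k = G (n + 1) (k + 1) + w n k * G n (k + 1))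
    (hl : ∀ n, Tendsto (G (n + 1)) atTop (𝓝 0)) (hR : NoWA (G 0) R) (n : ℕ) :
    ((Finset.range n).filter fun i => G (i + 1) 0 = 0).card < R := by
  have hnz : ∀ n, ∀ M, ∃ k, M ≤ k ∧ G n k ≠ 0 := by
    intro n
    induction n with
    | zero => exact hR.nz
    | succ n ih =>
      intro M
      obtain ⟨k, hk, h0⟩ := ih (M + 1)
      obtain ⟨j, rfl⟩ : ∃ j, k = j + 1 := ⟨k - 1, by omega⟩
      by_contra hcon
      push Not at hcon
      have h1 := hG n j
      rw [hcon j (by omega), hcon (j + 1) (by omega), zero_add] at h1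
      rcases mul_eq_zero.1 h1.symm with h2 | h2
      · exact (hw n j).ne' h2
      · exact h0 h2
  have key : ∀ n m, SA (G n) m →
      SA (G 0) (m + ((Finset.range n).filter fun i => G (i + 1) 0 = 0).card) := by
    intro n
    induction n with
    | zero => intro m h; simpa using h
    | succ n ih =>
      intro m h
      rw [Finset.range_add_one, Finset.filter_insert]
      split_ifs with h0
      · rw [Finset.card_insert_of_notMem (by simp), ← add_assoc, add_right_comm]
        exact ih (m + 1) (tail_sa_zero (hw n) (hG n) (hl n) h0 h)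
      · exact ih m (tail_sa (hw n) (hG n) (hl n) h)
  obtain ⟨k, hk, h0⟩ := hnz n 1
  have h1 := key n 0 (sa_zero hk h0)
  rw [zero_add] at h1
  exact hR.sa h1

/-- the number of zeros in a chain of heads -/
theorem head_chain {G : ℕ → ℕ → ℝ} {w : ℕ → ℕ → ℝ} {R : ℕ} (hw : ∀ n k, 0 < w n k)
    (hG : ∀ n k, 1 ≤ k → G (n + 1) (k + 1) = G (n + 1) k + w n k * G n k)
    (h1 : ∀ n, G (n + 1) 1 = 0) (hR : NoWA (G 0) R) (n : ℕ) (F : Finset ℕ)
    (hF : ∀ i ∈ F, i < n ∧ Tendsto (G (i + 1)) atTop (𝓝 0)) : F.card < R := by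
  classical
  have hnz : ∀ n, ∀ M, ∃ k, M ≤ k ∧ G n k ≠ 0 := by
    intro n
    induction n with
    | zero => exact hR.nz
    | succ n ih =>
      intro M
      obtain ⟨k, hk, h0⟩ := ih (M + 1)
      by_contra hcon
      push Not at hcon
      have h1 := hG n k (by omega)
      rw [hcon k (by omega), hcon (k + 1) (by omega), zero_add] at h1
      rcases mul_eq_zero.1 h1.symm with h2 | h2
      · exact (hw n k).ne' h2
      · exact h0 h2
  have key : ∀ n m, SA (G n) m →
      SA (G 0) (m + (F.filter fun i => i < n).card) := by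
    intro n
    induction n with
    | zero => intro m h; simpa using h
    | succ n ih =>
      intro m h
      by_cases h0 : n ∈ F
      · have h2 : (F.filter fun i => i < n + 1) = insert n (F.filter fun i => i < n) := by
          ext i
          simp only [Finset.mem_filter, Finset.mem_insert]
          constructor
          · rintro ⟨h3, h4⟩
            rcases Nat.lt_succ_iff_lt_or_eq.1 h4 with h5 | h5
            · exact Or.inr ⟨h3, h5⟩
            · exact Or.inl h5
          · rintro (rfl | ⟨h3, h4⟩)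
            · exact ⟨h0, Nat.lt_succ_self _⟩
            · exact ⟨h3, by omega⟩
        rw [h2, Finset.card_insert_of_notMem (by simp), ← add_assoc, add_right_comm]
        exact ih (m + 1) (head_sa_zero (hw n) (hG n) (h1 n) (hF n h0).2 h)
      · have h2 : (F.filter fun i => i < n + 1) = F.filter fun i => i < n := by
          refine Finset.filter_congr fun i hi => ?_
          constructor
          · intro h4
            rcases Nat.lt_succ_iff_lt_or_eq.1 h4 with h5 | h5
            · exact h5
            · subst h5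
              exact absurd hi h0
          · intro h4
            omega
        rw [h2]
        exact ih m (head_sa (hw n) (hG n) (h1 n) h)
  obtain ⟨k, hk, h0⟩ := hnz n 1
  have h2 := key n 0 (sa_zero hk h0)
  rw [zero_add, Finset.filter_true_of_mem fun i hi => (hF i hi).1] at h2
  exact hR.sa h2

/-! ### The functions at the beginning of the chains -/

/-- the combination of the tails -/
noncomputable def tailF (U : Finset (List ℕ)) (c : List ℕ → ℝ) (M : ℕ) : ℝ := ∑ u ∈ U, c u * T u M

/-- the combination of the truncated sums -/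
noncomputable def headF (U : Finset (List ℕ)) (c : List ℕ → ℝ) (k : ℕ) : ℝ := ∑ u ∈ U, c u * hr u k

/-- the abstract form of the two bounds for changes of sign -/
def Bound (P : List ℕ → Prop) (n R : ℕ) : Prop := ∀ (ι : Type) [Fintype ι], Fintype.card ι ≤ n →
  ∀ (k : ι → List ℕ) (c : ι → ℝ), (∀ j, P (k j)) → Function.Injective k → c ≠ 0 →
  NoWA (cmb (fun _ => 0) k c) R

lemma cmb_eq {ι : Type} [Fintype ι] (k : ι → List ℕ) (c : ι → ℝ) (n : ℕ) :
    cmb (fun _ => 0) k c n = ∑ j, c j * hr (k j) n := by
  unfold cmb co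
  exact Finset.sum_congr rfl fun j _ => by rw [neg_zero, zpow_zero, one_mul]

theorem head_noWA {P : List ℕ → Prop} {n R : ℕ} (hB : Bound P n R) {U : Finset (List ℕ)}
    {c : List ℕ → ℝ} (hU : ∀ u ∈ U, P u) (hn : U.card ≤ n) (hc : ∃ u ∈ U, c u ≠ 0) :
    NoWA (headF U c) R := by
  intro hi h
  refine hB U (by rwa [Fintype.card_coe]) (fun j => j) (fun j => c j) (fun j => hU j j.2)
    Subtype.val_injective ?_ hi (h.congr fun k _ _ => ?_)
  · obtain ⟨u, hu, h0⟩ := hc
    intro h1
    exact h0 (congrFun h1 ⟨u, hu⟩)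
  · rw [cmb_eq]
    unfold headF
    rw [← Finset.sum_coe_sort]

/-- the coefficient of the word `v` -/
noncomputable def cf (l : List (ℝ × List ℕ)) (v : List ℕ) : ℝ :=
  (l.map fun x => if x.2 = v then x.1 else 0).sum

lemma cf_sum (l : List (ℝ × List ℕ)) (S : Finset (List ℕ)) (hS : ∀ x ∈ l, x.2 ∈ S) (g : List ℕ → ℝ) :
    (l.map fun x => x.1 * g x.2).sum = ∑ v ∈ S, cf l v * g v := by
  unfold cf
  induction l with
  | nil => simp
  | cons x l ih =>
    simp only [List.map_cons, List.sum_cons]
    rw [ih fun y hy => hS y (List.mem_cons_of_mem _ hy)]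
    simp only [add_mul]
    rw [Finset.sum_add_distrib]
    congr 1
    simp only [ite_mul, zero_mul]
    rw [Finset.sum_ite_eq, if_pos (hS x List.mem_cons_self)]

theorem tail_noWA {n R J r : ℕ}
    (hB : Bound (fun v => v.length ≤ r ∧ ∀ x ∈ v, 1 ≤ x ∧ x ≤ J * r) (n * 2 ^ (r + 1)) R)
    {U : Finset (List ℕ)} {c : List ℕ → ℝ}
    (hU : ∀ u ∈ U, Adm u ∧ u.length ≤ r ∧ ∀ x ∈ u, x ≤ J) (hn : U.card ≤ n)
    (hc : ∃ u ∈ U, c u ≠ 0) : NoWA (tailF U c) R := by
  classical
  have hrep : ∀ u, ∃ l : List (ℝ × List ℕ), u ∈ U → l.length + 2 ≤ 2 ^ (u.length + 1) ∧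
      (∀ x ∈ l, x.2.length < u.length) ∧ Bd u.length (J * u.length) l ∧
      Rp (T u) (((-1) ^ u.length, u.reverse) :: l) := by
    intro u
    by_cases hu : u ∈ U
    · obtain ⟨l, hl⟩ := rep J u (hU u hu).1 (hU u hu).2.2
      exact ⟨l, fun _ => hl⟩
    · exact ⟨[], fun h => absurd h hu⟩
  choose L hL using hrep
  set tot : List (ℝ × List ℕ) := U.toList.flatMap fun u =>
    sm (c u) (((-1) ^ u.length, u.reverse) :: L u) with htot
  have hRp : Rp (tailF U c) tot := by
    intro M
    unfold tailF
    rw [htot, List.map_flatMap, List.flatMap_def, List.sum_flatten, List.map_map]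
    rw [← Finset.sum_map_toList U]
    congr 1
    refine List.map_congr_left fun u hu => ?_
    have h1 := ((hL u (Finset.mem_toList.1 hu)).2.2.2).sm (c u) M
    simp only [Function.comp]
    exact h1
  have hBd : Bd r (J * r) tot := by
    intro x hx
    obtain ⟨u, hu, hx⟩ := List.mem_flatMap.1 hx
    have hu' := Finset.mem_toList.1 hu
    have h1 := hL u hu'
    have h2 := hU u hu'
    have h3 : Bd u.length (J * u.length) (((-1 : ℝ) ^ u.length, u.reverse) :: L u) := by
      intro y hy
      rcases List.mem_cons.1 hy with rfl | hy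
      · refine ⟨by rw [List.length_reverse], fun z hz => ?_⟩
        have hz' := List.mem_reverse.1 hz
        refine ⟨h2.1.1 z hz', (h2.2.2 z hz').trans (Nat.le_mul_of_pos_right J ?_)⟩
        exact List.length_pos_of_mem hz'
      · exact h1.2.2.1 y hy
    exact (((h3.sm (c u)).mono h2.2.1 (Nat.mul_le_mul_left J h2.2.1))) x hx
  set S : Finset (List ℕ) := (tot.map Prod.snd).toFinset with hS
  have hmemS : ∀ x ∈ tot, x.2 ∈ S := fun x hx => by
    rw [hS, List.mem_toFinset]
    exact List.mem_map_of_mem hx
  have hcard : S.card ≤ n * 2 ^ (r + 1) := by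
    refine (List.toFinset_card_le _).trans ?_
    rw [List.length_map, htot, List.length_flatMap]
    have h1 : ∀ u ∈ U.toList, (sm (c u) (((-1) ^ u.length, u.reverse) :: L u)).length ≤ 2 ^ (r + 1) := by
      intro u hu
      have hu' := Finset.mem_toList.1 hu
      rw [sm_length, List.length_cons]
      have h2 := (hL u hu').1
      have h3 : 2 ^ (u.length + 1) ≤ 2 ^ (r + 1) :=
        Nat.pow_le_pow_right (by norm_num) (by have := (hU u hu').2.1; omega)
      omega
    have h2 := List.sum_le_card_nsmul (U.toList.map fun u =>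
      (sm (c u) (((-1) ^ u.length, u.reverse) :: L u)).length) (2 ^ (r + 1)) (by
        intro y hy
        obtain ⟨u, hu, rfl⟩ := List.mem_map.1 hy
        exact h1 u hu)
    rw [List.length_map, Finset.length_toList, smul_eq_mul] at h2
    exact h2.trans (Nat.mul_le_mul_right _ hn)
  -- the leading coefficient
  have hne : ∃ v ∈ S, cf tot v ≠ 0 := by
    obtain ⟨u1, hu1, h1⟩ := hc
    obtain ⟨u0, hu0, hmax⟩ := Finset.exists_max_image (U.filter fun u => c u ≠ 0) List.length
      ⟨u1, Finset.mem_filter.2 ⟨hu1, h1⟩⟩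
    obtain ⟨hu0, h0⟩ := Finset.mem_filter.1 hu0
    have hval : cf tot u0.reverse = c u0 * (-1) ^ u0.length := by
      unfold cf
      rw [htot, List.map_flatMap, List.flatMap_def, List.sum_flatten, List.map_map]
      have h2 : ∀ u ∈ U.toList, (List.sum ∘ fun u => List.map (fun x : ℝ × List ℕ =>
          if x.2 = u0.reverse then x.1 else 0) (sm (c u) (((-1) ^ u.length, u.reverse) :: L u))) u =
          if u = u0 then c u0 * (-1) ^ u0.length else 0 := by
        intro u hu
        have hu' := Finset.mem_toList.1 hu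
        simp only [Function.comp]
        unfold sm
        rw [List.map_cons, List.map_cons, List.sum_cons]
        have h3 : (List.map (fun x : ℝ × List ℕ => if x.2 = u0.reverse then x.1 else 0)
            (List.map (fun x : ℝ × List ℕ => (c u * x.1, x.2)) (L u))).sum = 0 := by
          refine List.sum_eq_zero fun y hy => ?_
          obtain ⟨x, hx, rfl⟩ := List.mem_map.1 hy
          obtain ⟨z, hz, rfl⟩ := List.mem_map.1 hx
          by_cases hcu : c u = 0
          · simp [hcu]
          · rw [if_neg]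
            intro h4
            have h5 := (hL u hu').2.1 z hz
            have h6 := hmax u (Finset.mem_filter.2 ⟨hu', hcu⟩)
            have h7 : z.2.length = u0.length := by
              have := congrArg List.length h4
              simpa using this
            omega
        rw [h3, add_zero]
        by_cases h4 : u = u0
        · subst h4
          rw [if_pos rfl, if_pos rfl]
        · rw [if_neg, if_neg h4]
          intro h5
          exact h4 (List.reverse_injective h5)
      rw [List.map_congr_left h2]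
      rw [Finset.sum_map_toList U (fun u => if u = u0 then c u0 * (-1) ^ u0.length else 0),
        Finset.sum_ite_eq', if_pos hu0]
    refine ⟨u0.reverse, ?_, ?_⟩
    · by_contra hcon
      have h2 : cf tot u0.reverse = 0 := by
        unfold cf
        refine List.sum_eq_zero fun y hy => ?_
        obtain ⟨x, hx, rfl⟩ := List.mem_map.1 hy
        rw [if_neg]
        intro h3
        exact hcon (h3 ▸ hmemS x hx)
      rw [hval] at h2
      rcases mul_eq_zero.1 h2 with h3 | h3
      · exact h0 h3
      · exact pow_ne_zero _ (by norm_num) h3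
    · rw [hval]
      exact mul_ne_zero h0 (pow_ne_zero _ (by norm_num))
  intro hi h
  obtain ⟨u, ε, h1, h2, h3, h4, h5⟩ := h
  refine hB S (by rwa [Fintype.card_coe]) (fun j => j) (fun j => cf tot j) (fun j => ?_)
    Subtype.val_injective ?_ (hi + 1) ⟨fun i => u i + 1, ε, h1, Nat.le_add_left 1 _,
      Nat.add_le_add_right h3 1, fun i hi => Nat.add_lt_add_right (h4 i hi) 1, fun i hi => ?_⟩
  · obtain ⟨j, hj⟩ := j
    rw [hS, List.mem_toFinset] at hj
    obtain ⟨x, hx, rfl⟩ := List.mem_map.1 hj
    exact hBd x hx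
  · obtain ⟨v, hv, h0⟩ := hne
    intro h6
    exact h0 (congrFun h6 ⟨v, hv⟩)
  · have h6 := h5 i hi
    rw [hRp (u i), cf_sum tot S hmemS (fun v => H v (u i))] at h6
    rw [cmb_eq]
    have h7 : ∑ j : S, cf tot j * hr (j : List ℕ) (u i + 1) = ∑ v ∈ S, cf tot v * H v (u i) := by
      rw [← Finset.sum_coe_sort S]
      exact Finset.sum_congr rfl fun j _ => by rw [H_hr]
    rw [h7]
    exact h6

end Run7.h53.VD
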