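import Mathlib
import Pool.Agent.Run7.h53.VD.Ext
import Pool.Agent.H447R2.MZ.Tup

/-!
# Few extensions of a finite set of words have a given vanishing combination (helper53)
-/

set_option autoImplicit false

namespace Run7.h53.VD

open Filter Topology Finset
open scoped ENNReal
open Pool.Agent.H447R2.MZ (H H_nil H_cons H_cons_zero H_cons_succ H_nonneg Adm val tendsto_H H_le_val H_mono)
open Pool.Agent.R404.MZ (SA SA.mono SA.wa cmb co)
open Pool.Agent.Y760.ZF (WA)
open Pool.Agent.Y760.ZG (hr hr_nil hr_cons)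

lemma encard_le {R : ℕ} {X : Set ℕ} (h : ∀ S : Finset ℕ, (∀ s ∈ S, s ∈ X) → S.card ≤ R) :
    X.encard ≤ R := by
  by_contra hcon
  rw [not_le] at hcon
  have h1 : ((R + 1 : ℕ) : ℕ∞) ≤ X.encard := by
    have := Order.add_one_le_of_lt hcon
    exact_mod_cast this
  obtain ⟨t, ht, h2⟩ := Set.exists_subset_encard_eq h1
  have hfin : t.Finite := Set.finite_of_encard_eq_coe h2
  have h3 := h hfin.toFinset fun s hs => ht (hfin.mem_toFinset.1 hs)
  rw [hfin.encard_eq_coe_toFinset_card] at h2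
  have h4 : hfin.toFinset.card = R + 1 := by exact_mod_cast h2
  omega

/-- words behind the words of `U` -/
def Zb (U : Finset (List ℕ)) (c : List ℕ → ℝ) : Set (List ℕ) :=
  {s | s ≠ [] ∧ (∀ u ∈ U, Adm (u ++ s)) ∧ ∑ u ∈ U, c u * val (u ++ s) = 0}

/-- words before the words of `U`, reversed -/
def Zf (U : Finset (List ℕ)) (c : List ℕ → ℝ) : Set (List ℕ) :=
  {s | s ≠ [] ∧ (∀ u ∈ U, Adm (s.reverse ++ u)) ∧ ∑ u ∈ U, c u * val (s.reverse ++ u) = 0}

lemma adm_head {x : ℕ} {l : List ℕ} : Adm (x :: l) ↔ (∀ y ∈ l, 1 ≤ y) ∧ 2 ≤ x := by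
  constructor
  · intro h
    exact ⟨fun y hy => h.1 y (List.mem_cons_of_mem _ hy), h.2 x l rfl⟩
  · rintro ⟨h1, h2⟩
    refine ⟨fun y hy => ?_, fun a t hat => ?_⟩
    · rcases List.mem_cons.1 hy with rfl | hy
      · omega
      · exact h1 y hy
    · have := (List.cons.inj hat).1
      omega

lemma adm_ext {u v v' : List ℕ} {x : ℕ} (h : Adm (u ++ x :: v)) (hv : ∀ y ∈ v', 1 ≤ y) :
    Adm (u ++ x :: v') := by
  cases u with
  | nil =>
    rw [List.nil_append, adm_head] at h ⊢
    exact ⟨hv, h.2⟩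
  | cons b u =>
    rw [List.cons_append, adm_head] at h ⊢
    refine ⟨fun y hy => ?_, h.2⟩
    rcases List.mem_append.1 hy with hy | hy
    · exact h.1 y (List.mem_append_left _ hy)
    · rcases List.mem_cons.1 hy with rfl | hy
      · exact h.1 y (by simp)
      · exact hv y hy

theorem few_behind {U : Finset (List ℕ)} {c : List ℕ → ℝ} {R : ℕ} (hc : ∃ u ∈ U, c u ≠ 0)
    (hR : (∀ u ∈ U, Adm u) → NoWA (tailF U c) R) : Few (R - 1) (Zb U c) := by
  intro a
  refine encard_le fun S hS => ?_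
  rcases S.eq_empty_or_nonempty with rfl | ⟨n0, hn0⟩
  · simp
  set b : ℕ → ℕ := fun i => max (a i) 1 with hb
  have hb1 : ∀ i, 1 ≤ b i := fun i => le_max_right _ _
  have hab : ∀ n ∈ S, ∀ i < n, a i = b i := by
    intro n hn i hi
    obtain ⟨u, hu, _⟩ := hc
    have h1 := ((hS n hn).2.1 u hu).1 (a i) (List.mem_append_right _ (mem_pf.2 ⟨i, hi, rfl⟩))
    rw [hb]
    simp only
    omega
  have hpos : ∀ n ∈ S, 1 ≤ n := by
    intro n hn
    rcases Nat.eq_zero_or_pos n with rfl | h
    · exact absurd rfl (hS 0 hn).1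
    · exact h
  have hadm : ∀ n, ∀ u ∈ U, Adm (u ++ pf b (n + 1)) := by
    intro n u hu
    have h1 := (hS n0 hn0).2.1 u hu
    rw [pf_congr (hab n0 hn0)] at h1
    obtain ⟨m, rfl⟩ : ∃ m, n0 = m + 1 := ⟨n0 - 1, by have := hpos n0 hn0; omega⟩
    have h2 : ∀ m, pf b (m + 1) = b 0 :: pf (fun i => b (i + 1)) m := by
      intro m
      have h3 : b = cns (b 0) fun i => b (i + 1) := by
        funext i
        cases i <;> rfl
      conv_lhs => rw [h3]
      exact pf_cns _ _ _
    rw [h2] at h1 ⊢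
    refine adm_ext h1 fun y hy => ?_
    obtain ⟨i, _, rfl⟩ := mem_pf.1 hy
    exact hb1 _
  have hadm0 : ∀ u ∈ U, Adm u := fun u hu => adm_append_left (hadm 0 u hu)
  set G : ℕ → ℕ → ℝ := fun n k => ∑ u ∈ U, c u * T (u ++ pf b n) k with hG
  have hG0 : G 0 = tailF U c := by
    funext k
    rw [hG]
    unfold tailF
    simp only [pf_zero, List.append_nil]
  have hN : NoWA (G 0) R := by rw [hG0]; exact hR hadm0
  have hchain := tail_chain (G := G) (w := fun n k => (((k + 1 : ℕ) : ℝ) ^ (b n))⁻¹) (R := R)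
    (fun n k => by positivity) (fun n k => by
      rw [hG]
      simp only
      rw [Finset.mul_sum, ← Finset.sum_add_distrib]
      refine Finset.sum_congr rfl fun u hu => ?_
      have h1 := hadm n u hu
      rw [pf_succ, ← List.append_assoc] at h1 ⊢
      rw [T_step h1 k]
      ring) (fun n => by
      rw [hG]
      have h1 : Tendsto (fun k => ∑ u ∈ U, c u * T (u ++ pf b (n + 1)) k) atTop
          (𝓝 (∑ u ∈ U, c u * 0)) := tendsto_finsetSum _ fun u hu =>
        (T_tendsto (hadm n u hu) (by rw [pf_succ]; simp)).const_mul _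
      simpa using h1) hN
  obtain ⟨n, hn⟩ : ∃ n, ∀ s ∈ S, s ≤ n := ⟨S.sup id, fun s hs => Finset.le_sup (f := id) hs⟩
  have h1 := hchain n
  have h2 : S.card ≤ ((Finset.range n).filter fun i => G (i + 1) 0 = 0).card := by
    refine Finset.card_le_card_of_injOn (fun s => s - 1) (fun s hs => ?_) (fun s hs t ht h => ?_)
    · have h3 := hpos s hs
      have h4 := hn s hs
      simp only [Finset.coe_filter, Finset.mem_range]
      refine ⟨by omega, ?_⟩
      rw [Nat.sub_add_cancel h3, hG]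
      simp only
      have h5 := (hS s hs).2.2
      rw [pf_congr (hab s hs)] at h5
      rw [← h5]
      refine Finset.sum_congr rfl fun u hu => ?_
      obtain ⟨m, rfl⟩ : ∃ m, s = m + 1 := ⟨s - 1, by omega⟩
      rw [T_zero (hadm m u hu)]
    · have h3 := hpos s hs
      have h4 := hpos t ht
      simp only at h
      omega
  omega

theorem few_before {U : Finset (List ℕ)} {c : List ℕ → ℝ} {R : ℕ}
    (hR : NoWA (headF U c) R) : Few (R - 1) (Zf U c) := by
  intro a
  refine encard_le fun S hS => ?_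
  have hpos : ∀ n ∈ S, 1 ≤ n := by
    intro n hn
    rcases Nat.eq_zero_or_pos n with rfl | h
    · exact absurd rfl (hS 0 hn).1
    · exact h
  have hrev : ∀ n, (pf a (n + 1)).reverse = a n :: (pf a n).reverse := by
    intro n
    rw [pf_succ, List.reverse_append, List.reverse_singleton, List.singleton_append]
  set G : ℕ → ℕ → ℝ := fun n k => ∑ u ∈ U, c u * hr ((pf a n).reverse ++ u) k with hG
  have hG0 : G 0 = headF U c := by
    funext k
    rw [hG]
    unfold headF
    simp only [pf_zero, List.reverse_nil, List.nil_append]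
  have hN : NoWA (G 0) R := by rw [hG0]; exact hR
  obtain ⟨n, hn⟩ : ∃ n, ∀ s ∈ S, s ≤ n := ⟨S.sup id, fun s hs => Finset.le_sup (f := id) hs⟩
  have hchain := head_chain (G := G) (w := fun n k => (((max k 1 : ℕ) : ℝ) ^ (a n))⁻¹) (R := R)
    (fun n k => by
      have : (0 : ℝ) < ((max k 1 : ℕ) : ℝ) := by
        exact_mod_cast lt_of_lt_of_le one_pos (le_max_right k 1)
      positivity) (fun n k hk => by
      rw [hG]
      simp only
      rw [Finset.mul_sum, ← Finset.sum_add_distrib]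
      refine Finset.sum_congr rfl fun u hu => ?_
      rw [hrev, List.cons_append, hr_cons, hr_cons, Finset.sum_Ico_succ_top hk, max_eq_left hk]
      ring) (fun n => by
      rw [hG]
      simp only
      refine Finset.sum_eq_zero fun u _ => ?_
      rw [hrev, List.cons_append, hr_cons, Finset.Ico_self, Finset.sum_empty, mul_zero]) hN n
    (S.image fun s => s - 1) (fun i hi => by
      obtain ⟨s, hs, rfl⟩ := Finset.mem_image.1 hi
      have h3 := hpos s hs
      have h4 := hn s hs
      refine ⟨by omega, ?_⟩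
      rw [Nat.sub_add_cancel h3]
      obtain ⟨_, h5, h6⟩ := hS s hs
      rw [hG]
      have h7 : Tendsto (fun k => ∑ u ∈ U, c u * hr ((pf a s).reverse ++ u) k) atTop
          (𝓝 (∑ u ∈ U, c u * val ((pf a s).reverse ++ u))) := by
        refine tendsto_finsetSum _ fun u hu => Tendsto.const_mul _ ?_
        rw [← tendsto_add_atTop_iff_nat 1]
        refine (tendsto_H _ (h5 u hu)).congr fun M => ?_
        rw [H_hr]
      rw [h6] at h7
      exact h7)
  rw [Finset.card_image_of_injOn] at hchain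
  · omega
  · intro s hs t ht h
    have h3 := hpos s hs
    have h4 := hpos t ht
    simp only at h
    omega

/-! ### Proportions among the words in the letters two and three -/

/-- words in the letters two and three of weight `n` -/
def hof (n : ℕ) : Set (List ℕ) := {s | (∀ x ∈ s, x = 2 ∨ x = 3) ∧ s.sum = n}

lemma hof_succ (n : ℕ) : hof (n + 3) = (List.cons 2) '' hof (n + 1) ∪ (List.cons 3) '' hof n := by
  ext s
  constructor
  · rintro ⟨h1, h2⟩
    cases s with
    | nil => simp at h2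
    | cons x s =>
      rw [List.sum_cons] at h2
      have h3 := h1 x List.mem_cons_self
      have h4 : ∀ y ∈ s, y = 2 ∨ y = 3 := fun y hy => h1 y (List.mem_cons_of_mem _ hy)
      rcases h3 with rfl | rfl
      · left
        exact ⟨s, ⟨h4, by omega⟩, rfl⟩
      · right
        exact ⟨s, ⟨h4, by omega⟩, rfl⟩
  · rintro (⟨t, ⟨h1, h2⟩, rfl⟩ | ⟨t, ⟨h1, h2⟩, rfl⟩)
    · refine ⟨fun x hx => ?_, by rw [List.sum_cons, h2]; omega⟩
      rcases List.mem_cons.1 hx with rfl | hx
      · exact Or.inl rfl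
      · exact h1 x hx
    · refine ⟨fun x hx => ?_, by rw [List.sum_cons, h2]; omega⟩
      rcases List.mem_cons.1 hx with rfl | hx
      · exact Or.inr rfl
      · exact h1 x hx

lemma hof_zero : hof 0 = {[]} := by
  ext s
  simp only [Set.mem_singleton_iff]
  constructor
  · rintro ⟨h1, h2⟩
    cases s with
    | nil => rfl
    | cons x s =>
      rw [List.sum_cons] at h2
      have h3 := h1 x List.mem_cons_self
      omega
  · rintro rfl
    exact ⟨fun x hx => by simp at hx, rfl⟩

lemma hof_one : hof 1 = ∅ := by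
  ext s
  simp only [Set.mem_empty_iff_false, iff_false]
  rintro ⟨h1, h2⟩
  cases s with
  | nil => simp at h2
  | cons x s =>
    rw [List.sum_cons] at h2
    have h3 := h1 x List.mem_cons_self
    omega

lemma hof_two : hof 2 = {[2]} := by
  ext s
  simp only [Set.mem_singleton_iff]
  constructor
  · rintro ⟨h1, h2⟩
    cases s with
    | nil => simp at h2
    | cons x s =>
      rw [List.sum_cons] at h2
      have h3 := h1 x List.mem_cons_self
      have h4 : x = 2 := by omega
      subst h4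
      have h5 : s ∈ hof 0 := ⟨fun y hy => h1 y (List.mem_cons_of_mem _ hy), by omega⟩
      rw [hof_zero] at h5
      rw [Set.mem_singleton_iff.1 h5]
  · rintro rfl
    exact ⟨fun x hx => by simp at hx; exact Or.inl hx, rfl⟩

lemma hof_finite (n : ℕ) : (hof n).Finite := by
  induction n using Nat.strong_induction_on with
  | _ n ih =>
    rcases n with _ | _ | _ | n
    · rw [hof_zero]; exact Set.finite_singleton _
    · rw [hof_one]; exact Set.finite_empty
    · rw [hof_two]; exact Set.finite_singleton _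
    · rw [hof_succ]
      exact ((ih (n + 1) (by omega)).image _).union ((ih n (by omega)).image _)

lemma hof_card (n : ℕ) : (hof (n + 3)).ncard = (hof (n + 1)).ncard + (hof n).ncard := by
  rw [hof_succ, Set.ncard_union_eq ?_ ((hof_finite _).image _) ((hof_finite _).image _),
    Set.ncard_image_of_injective _ (List.cons_injective), Set.ncard_image_of_injective _
    (List.cons_injective)]
  rw [Set.disjoint_left]
  rintro _ ⟨t, _, rfl⟩ ⟨t', _, h⟩
  have := (List.cons.inj h).1
  omega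

lemma exists_rho : ∃ ρ : ℝ, 3 / 4 < ρ ∧ ρ < 1 ∧ ρ ^ 2 + ρ ^ 3 = 1 := by
  have h1 : Continuous fun x : ℝ => x ^ 2 + x ^ 3 := by fun_prop
  have h2 := intermediate_value_Ioo (by norm_num : (3 / 4 : ℝ) ≤ 1) h1.continuousOn
  obtain ⟨ρ, h3, h4⟩ := h2 (show (1 : ℝ) ∈ Set.Ioo _ _ by constructor <;> norm_num)
  exact ⟨ρ, h3.1, h3.2, h4⟩

lemma hof_lower {ρ : ℝ} (h1 : 3 / 4 < ρ) (h2 : ρ < 1) (h3 : ρ ^ 2 + ρ ^ 3 = 1) (n : ℕ) (hn : n ≠ 1) :
    1 / 4 ≤ ((hof n).ncard : ℝ) * ρ ^ n := by
  have hρ : 0 < ρ := by linarith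
  have c0 : (hof 0).ncard = 1 := by rw [hof_zero, Set.ncard_singleton]
  have c1 : (hof 1).ncard = 0 := by rw [hof_one, Set.ncard_empty]
  have c2 : (hof 2).ncard = 1 := by rw [hof_two, Set.ncard_singleton]
  have c3 : (hof 3).ncard = 1 := by rw [hof_card 0, c0, c1]
  have c4 : (hof 4).ncard = 1 := by rw [hof_card 1, c1, c2]
  have p2 : (9 / 16 : ℝ) ≤ ρ ^ 2 := by nlinarith
  have key : ∀ n, 1 / 4 ≤ ((hof (n + 2)).ncard : ℝ) * ρ ^ (n + 2) ∧
      1 / 4 ≤ ((hof (n + 3)).ncard : ℝ) * ρ ^ (n + 3) ∧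
      1 / 4 ≤ ((hof (n + 4)).ncard : ℝ) * ρ ^ (n + 4) := by
    intro n
    induction n with
    | zero =>
      simp only [Nat.zero_add]
      rw [c2, c3, c4]
      refine ⟨by norm_num; linarith, ?_, ?_⟩
      · norm_num
        have : ρ ^ 3 = ρ ^ 2 * ρ := by ring
        rw [this]
        nlinarith
      · norm_num
        have : ρ ^ 4 = ρ ^ 2 * ρ ^ 2 := by ring
        rw [this]
        nlinarith
    | succ n ih =>
      obtain ⟨i1, i2, i3⟩ := ih
      refine ⟨?_, ?_, ?_⟩
      · rw [show n + 1 + 2 = n + 3 by ring]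
        exact i2
      · rw [show n + 1 + 3 = n + 4 by ring]
        exact i3
      · rw [show n + 1 + 4 = (n + 2) + 3 by ring, hof_card (n + 2)]
        push_cast
        have e1 : (((hof (n + 2 + 1)).ncard : ℝ) + ((hof (n + 2)).ncard : ℝ)) * ρ ^ (n + 2 + 3) =
          ρ ^ 2 * (((hof (n + 3)).ncard : ℝ) * ρ ^ (n + 3)) +
          ρ ^ 3 * (((hof (n + 2)).ncard : ℝ) * ρ ^ (n + 2)) := by
          rw [show n + 2 + 1 = n + 3 by ring]
          ring
        rw [e1]
        have h4 : ρ ^ 2 * (1 / 4) + ρ ^ 3 * (1 / 4) = 1 / 4 := by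
          rw [← add_mul, h3, one_mul]
        have h5 := mul_le_mul_of_nonneg_left i2 (by positivity : 0 ≤ ρ ^ 2)
        have h6 := mul_le_mul_of_nonneg_left i1 (by positivity : 0 ≤ ρ ^ 3)
        linarith
  rcases n with _ | _ | n
  · rw [c0]; norm_num
  · exact absurd rfl hn
  · exact (key n).1

/-- the sum of the proportions -/
theorem proportions {Z : Set (List ℕ)} {R : ℕ}
    (h : ∀ p : ℕ → ℝ≥0∞, ∑' a, p a ≤ 1 → ∑' t : Z, (t.1.map p).prod ≤ R) :
    ∑' n, ((Z ∩ hof n).ncard : ℝ≥0∞) / ((hof n).ncard : ℝ≥0∞) ≤ 4 * R := by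
  classical
  obtain ⟨ρ, h1, h2, h3⟩ := exists_rho
  have hρ : 0 < ρ := by linarith
  set q : ℝ≥0∞ := ENNReal.ofReal ρ with hq
  set p : ℕ → ℝ≥0∞ := fun x => if x = 2 ∨ x = 3 then q ^ x else 0 with hp
  have hp1 : ∑' a, p a ≤ 1 := by
    have h4 : ∑' a, p a = ∑ a ∈ {2, 3}, p a := by
      refine tsum_eq_sum fun b hb => ?_
      rw [hp]
      simp only
      rw [if_neg]
      simpa using hb
    have p2 : p 2 = q ^ 2 := if_pos (Or.inl rfl)
    have p3 : p 3 = q ^ 3 := if_pos (Or.inr rfl)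
    rw [h4, Finset.sum_pair (by norm_num), p2, p3, hq, ← ENNReal.ofReal_pow hρ.le,
      ← ENNReal.ofReal_pow hρ.le, ← ENNReal.ofReal_add (by positivity) (by positivity), h3,
      ENNReal.ofReal_one]
  have hprod : ∀ n, ∀ s ∈ hof n, (s.map p).prod = q ^ n := by
    have : ∀ s : List ℕ, (∀ x ∈ s, x = 2 ∨ x = 3) → (s.map p).prod = q ^ s.sum := by
      intro s
      induction s with
      | nil => intro _; simp
      | cons x s ih =>
        intro h4
        rw [List.map_cons, List.prod_cons, ih fun y hy => h4 y (List.mem_cons_of_mem _ hy),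
          List.sum_cons, pow_add, hp]
        simp only
        rw [if_pos (h4 x List.mem_cons_self)]
    rintro n s ⟨h4, h5⟩
    rw [this s h4, h5]
  have hdisj : ∑' n, ((Z ∩ hof n).ncard : ℝ≥0∞) * q ^ n ≤ R := by
    refine le_trans ?_ (h p hp1)
    have e1 : ∀ n, ((Z ∩ hof n).ncard : ℝ≥0∞) * q ^ n =
        ∑' t : Z, if t.1 ∈ hof n then (t.1.map p).prod else 0 := by
      intro n
      have hf : (Z ∩ hof n).Finite := (hof_finite n).inter_of_right _
      rw [Set.ncard_eq_toFinset_card _ hf]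
      have e2 : ∑' t : Z, (if t.1 ∈ hof n then (t.1.map p).prod else 0) =
          ∑' t : List ℕ, Z.indicator (fun t => if t ∈ hof n then (t.map p).prod else 0) t :=
        tsum_subtype Z (fun t => if t ∈ hof n then (t.map p).prod else 0)
      rw [e2, tsum_eq_sum (s := hf.toFinset)]
      · rw [Finset.sum_congr rfl (g := fun _ => q ^ n), Finset.sum_const, nsmul_eq_mul]
        intro t ht
        obtain ⟨h4, h5⟩ := hf.mem_toFinset.1 ht
        rw [Set.indicator_of_mem h4, if_pos h5, hprod n t h5]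
      · intro t ht
        by_cases h4 : t ∈ Z
        · rw [Set.indicator_of_mem h4, if_neg]
          intro h5
          exact ht (hf.mem_toFinset.2 ⟨h4, h5⟩)
        · rw [Set.indicator_of_notMem h4]
    simp only [e1]
    rw [ENNReal.tsum_comm]
    refine ENNReal.tsum_le_tsum fun t => ?_
    by_cases h4 : ∀ x ∈ t.1, x = 2 ∨ x = 3
    · rw [tsum_eq_single t.1.sum]
      · rw [if_pos (show t.1 ∈ hof t.1.sum from ⟨h4, rfl⟩)]
      · intro n hn
        rw [if_neg]
        rintro ⟨_, h5⟩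
        exact hn h5.symm
    · rw [ENNReal.tsum_eq_zero.2]
      · exact bot_le
      · intro n
        rw [if_neg]
        rintro ⟨h5, _⟩
        exact h4 h5
  have hterm : ∀ n, ((Z ∩ hof n).ncard : ℝ≥0∞) / ((hof n).ncard : ℝ≥0∞) ≤
      4 * (((Z ∩ hof n).ncard : ℝ≥0∞) * q ^ n) := by
    intro n
    by_cases hn : n = 1
    · subst hn
      have : Z ∩ hof 1 = ∅ := by rw [hof_one, Set.inter_empty]
      rw [this, Set.ncard_empty]
      simp
    · have h4 := hof_lower h1 h2 h3 n hn
      have h5 : (1 : ℝ≥0∞) ≤ 4 * (((hof n).ncard : ℝ≥0∞) * q ^ n) := by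
        have h6 : (1 : ℝ) ≤ 4 * (((hof n).ncard : ℝ) * ρ ^ n) := by linarith
        have h7 := ENNReal.ofReal_le_ofReal h6
        rw [ENNReal.ofReal_one, ENNReal.ofReal_mul (by norm_num), ENNReal.ofReal_mul (by positivity),
          ENNReal.ofReal_pow hρ.le, ENNReal.ofReal_natCast] at h7
        simpa using h7
      refine ENNReal.div_le_of_le_mul ?_
      calc ((Z ∩ hof n).ncard : ℝ≥0∞) = ((Z ∩ hof n).ncard : ℝ≥0∞) * 1 := (mul_one _).symm
        _ ≤ ((Z ∩ hof n).ncard : ℝ≥0∞) * (4 * (((hof n).ncard : ℝ≥0∞) * q ^ n)) :=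
            mul_le_mul_right h5 _
        _ = 4 * (((Z ∩ hof n).ncard : ℝ≥0∞) * q ^ n) * ((hof n).ncard : ℝ≥0∞) := by ring
  refine (ENNReal.tsum_le_tsum hterm).trans ?_
  rw [ENNReal.tsum_mul_left]
  exact mul_le_mul_right hdisj _

/-! ### The bounds -/

theorem bound_explicit (J r : ℕ) (n : ℕ) :
    Bound (fun v => v.length ≤ r ∧ ∀ x ∈ v, 1 ≤ x ∧ x ≤ J) n ((J + 2) ^ r) := by
  intro ι _ _ k c hk hinj hc hi h
  have := Pool.Agent.R404.MZ.box_signs J r 0 (fun _ => 0) k c hk (fun _ _ => by simp)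
    (fun i j hij => hinj (Prod.mk.inj hij).2) hc hi
  rw [Nat.zero_add, one_mul] at this
  exact this h

theorem bound_uniform (n r : ℕ) : ∃ R, ∀ J, Bound (fun v => v.length ≤ r ∧ ∀ x ∈ v, 1 ≤ x ∧ x ≤ J) n R := by
  obtain ⟨R, hR⟩ := Pool.Agent.R404.MZ.few_signs n r
  refine ⟨R, fun J ι _ hn k c hk hinj hc hi h => ?_⟩
  exact hR ι hn (fun _ => 0) k c (fun j => ⟨(hk j).1, fun x hx => ((hk j).2 x hx).1⟩)
    (fun i j hij => hinj (Prod.mk.inj hij).2) hc hi h

end Run7.h53.VD
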